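import Pool.Agent.J4H65.WA.Avg2

/-!
# Equality of nondeterministic exponential time and exponential space, and the average case

(Linear exponents, relative to an arbitrary oracle.) The classes are equal if and only if every
tally language in `PSPACE` can be approximated by a language in `NP` in a rather weak sense.
-/

namespace Pool.Agent.J4H65.Old.TallyAverageCase

open Pool.Agent.H620R2.Gauge Pool.Agent.H622R2.Exp Pool.Agent.J4H65.WA

theorem result (A : Oracle) :
    (∀ L : Set (List Bool), InNTime Lin A L ↔ InSpace Lin A L) ↔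
      ∀ T : Set (List Bool), Tally T → IsPSPACE A T →
        ∃ S : Set (List Bool), IsNP A S ∧ ∃ α β : ℝ, α + β < 1 / 4 ∧
          (∀ᶠ N : ℕ in Filter.atTop, (cn (S \ T) N : ℝ) ≤ β * N) ∧
          ∃ C : ℕ, ∀ᶠ N : ℕ in Filter.atTop, ∃ M : ℕ, N ≤ M ∧ M ≤ N ^ C ∧
            (cn (T \ S) M : ℝ) ≤ α * M := by
  constructor
  · intro h T hT hP
    refine ⟨T, exact_of (fun L hL => (h L).2 hL) hT hP, 0, 0, by norm_num, ?_, 1, ?_⟩
    · refine Filter.Eventually.of_forall fun N => ?_
      simp [cn]
    · refine Filter.Eventually.of_forall fun N => ⟨N, le_rfl, by simp, ?_⟩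
      simp [cn]
  · intro h L
    refine ⟨fun hL => hL.isSpace good_Lin, fun hL => ?_⟩
    obtain ⟨T, hT, hP, hc⟩ := avg_core hL
    obtain ⟨S, hS, α, β, hαβ, h1, C, h2⟩ := h T hT hP
    exact hc ⟨S, hS, α, β, hαβ, C, h1, h2⟩

end Pool.Agent.J4H65.Old.TallyAverageCase
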